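import Mathlib
import Pool.Agent.Lib.MP_3f9d7d_an.H30.Replace

open MeasureTheory Metric
open scoped InnerProductSpace

namespace Pool.Agent.Results.MP_3f9d7d_an.FiniteMinimizer

/-- The `p`-frame energy of a measure on the unit sphere of `ℝ^d`. -/
noncomputable def frameEnergy (d : ℕ) (p : ℝ)
    (μ : Measure (sphere (0 : EuclideanSpace ℝ (Fin d)) 1)) : ℝ :=
  ∫ z, |⟪(z.1 : EuclideanSpace ℝ (Fin d)), (z.2 : EuclideanSpace ℝ (Fin d))⟫_ℝ| ^ p ∂(μ.prod μ)

/-- `μ` is a Borel probability measure on the unit sphere of `ℝ^d` which minimizes the `p`-frame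
energy among all of these. -/
def IsMinimizer (d : ℕ) (p : ℝ) (μ : Measure (sphere (0 : EuclideanSpace ℝ (Fin d)) 1)) : Prop :=
  IsProbabilityMeasure μ ∧
    ∀ ν : Measure (sphere (0 : EuclideanSpace ℝ (Fin d)) 1), IsProbabilityMeasure ν →
      frameEnergy d p μ ≤ frameEnergy d p ν

/-- For every `p > 0` the `p`-frame energy on the unit sphere of `ℝ^d` has a minimizer with finite
support, and the support of every minimizer contains the support of such a minimizer. -/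
theorem result (d : ℕ) (hd : 1 ≤ d) (p : ℝ) (hp : 0 < p) :
    (∃ ν, IsMinimizer d p ν ∧ ν.support.Finite) ∧
      ∀ μ, IsMinimizer d p μ →
        ∃ ν, IsMinimizer d p ν ∧ ν.support.Finite ∧ ν.support ⊆ μ.support := by
  have key : ∀ μ, IsMinimizer d p μ →
      ∃ ν, IsMinimizer d p ν ∧ ν.support.Finite ∧ ν.support ⊆ μ.support := by
    rintro μ ⟨hprob, hmin⟩
    obtain ⟨ν, h1, h2, h3, h4⟩ := Pool.Agent.Lib.MP_3f9d7d_an.H30.replace d p hp rfl μ hmin
    refine ⟨ν, ⟨h1, fun ν' hν' => ?_⟩, h2, h3⟩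
    have h5 : frameEnergy d p ν = frameEnergy d p μ := h4
    rw [h5]
    exact hmin ν' hν'
  refine ⟨?_, key⟩
  have hne : Nonempty (sphere (0 : EuclideanSpace ℝ (Fin d)) 1) := by
    refine ⟨⟨EuclideanSpace.single (⟨0, hd⟩ : Fin d) (1 : ℝ), ?_⟩⟩
    rw [mem_sphere_zero_iff_norm]
    simp
  have hKc : Continuous fun z : sphere (0 : EuclideanSpace ℝ (Fin d)) 1 ×
      sphere (0 : EuclideanSpace ℝ (Fin d)) 1 =>
      |⟪(z.1 : EuclideanSpace ℝ (Fin d)), (z.2 : EuclideanSpace ℝ (Fin d))⟫_ℝ| ^ p := by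
    apply Continuous.rpow_const
    · fun_prop
    · intro _; right; exact hp.le
  obtain ⟨μ, h1, h2⟩ := Pool.Agent.Lib.MP_3f9d7d_an.H30.exists_minimizer hKc
  obtain ⟨ν, h3, h4, -⟩ := key μ ⟨h1, h2⟩
  exact ⟨ν, h3, h4⟩

end Pool.Agent.Results.MP_3f9d7d_an.FiniteMinimizer
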