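import Mathlib
import Pool.Agent.Lib.MP_3f9d7d_an.RealSet
import Pool.Agent.Lib.MP_3f9d7d_an.Variation

open MeasureTheory Metric
open scoped InnerProductSpace

namespace Pool.Agent.Results.MP_3f9d7d_an.FiniteSupport

/-- The `p`-frame energy of a measure on the unit sphere of `ℝ^d`. -/
noncomputable def frameEnergy (d : ℕ) (p : ℝ)
    (μ : Measure (sphere (0 : EuclideanSpace ℝ (Fin d)) 1)) : ℝ :=
  ∫ z, |⟪(z.1 : EuclideanSpace ℝ (Fin d)), (z.2 : EuclideanSpace ℝ (Fin d))⟫_ℝ| ^ p ∂(μ.prod μ)

/-- `μ` is a Borel probability measure on the unit sphere of `ℝ^d` which minimizes the `p`-frame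
energy among all of these. -/
def IsMinimizer (d : ℕ) (p : ℝ) (μ : Measure (sphere (0 : EuclideanSpace ℝ (Fin d)) 1)) : Prop :=
  IsProbabilityMeasure μ ∧
    ∀ ν : Measure (sphere (0 : EuclideanSpace ℝ (Fin d)) 1), IsProbabilityMeasure ν →
      frameEnergy d p μ ≤ frameEnergy d p ν

/-- If none of the numbers `p, 2p, ..., (d-1)p` is an integer, then every minimizer of the
`p`-frame energy on the unit sphere of `ℝ^d` has finite support. -/
theorem result (d : ℕ) (p : ℝ) (hp : 0 < p)
    (hkp : ∀ n : ℕ, 1 ≤ n → n < d → ∀ j : ℤ, (n : ℝ) * p ≠ j)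
    (μ : Measure (sphere (0 : EuclideanSpace ℝ (Fin d)) 1)) (hμ : IsMinimizer d p μ) :
    μ.support.Finite := by
  obtain ⟨hprob, hmin⟩ := hμ
  set K : sphere (0 : EuclideanSpace ℝ (Fin d)) 1 × sphere (0 : EuclideanSpace ℝ (Fin d)) 1 → ℝ :=
    fun z => |⟪(z.1 : EuclideanSpace ℝ (Fin d)), (z.2 : EuclideanSpace ℝ (Fin d))⟫_ℝ| ^ p with hK
  have hKc : Continuous K := by
    apply Continuous.rpow_const
    · fun_prop
    · intro _; right; exact hp.le
  have hK0 : ∀ z, 0 ≤ K z := fun z => Real.rpow_nonneg (abs_nonneg _) _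
  have hpsd := fun (s : Finset (sphere (0 : EuclideanSpace ℝ (Fin d)) 1))
    (hs : ∀ x ∈ s, x ∈ μ.support) (c : sphere (0 : EuclideanSpace ℝ (Fin d)) 1 → ℝ) =>
    Pool.Agent.Lib.MP_3f9d7d_an.psd_of_minimizer hKc hK0 hmin hs c
  set X : Set (EuclideanSpace ℝ (Fin d)) := Subtype.val '' μ.support with hX
  have hfin : X.Finite := by
    apply Pool.Agent.Lib.MP_3f9d7d_an.finite_of_psd hp
    · intro n j hn hnd h
      exact hkp n hn hnd (j : ℤ) (by rw [← h]; simp)
    · rintro _ ⟨x, -, rfl⟩
      exact mem_sphere_zero_iff_norm.mp x.2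
    · intro s c
      classical
      have hmem : ∀ x : X, ∃ y : sphere (0 : EuclideanSpace ℝ (Fin d)) 1, y ∈ μ.support ∧
          (y : EuclideanSpace ℝ (Fin d)) = x := by
        rintro ⟨_, x, hx, rfl⟩
        exact ⟨x, hx, rfl⟩
      choose f hf1 hf2 using hmem
      have hfinj : Function.Injective f := by
        intro a b hab
        apply Subtype.ext
        rw [← hf2 a, ← hf2 b, hab]
      have h1 := hpsd (s.image f) (by
        intro x hx
        obtain ⟨a, -, rfl⟩ := Finset.mem_image.mp hx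
        exact hf1 a) (fun y => Function.extend f c 0 y)
      rw [Finset.sum_image (fun a _ b _ h => hfinj h)] at h1
      have h2 : ∀ a ∈ s, ∑ y ∈ s.image f, Function.extend f c 0 (f a) * Function.extend f c 0 y *
          K (f a, y) = ∑ b ∈ s, c a * c b *
            |⟪(a : EuclideanSpace ℝ (Fin d)), (b : EuclideanSpace ℝ (Fin d))⟫_ℝ| ^ p := by
        intro a _
        rw [Finset.sum_image (fun a _ b _ h => hfinj h)]
        apply Finset.sum_congr rfl
        intro b _
        rw [hfinj.extend_apply, hfinj.extend_apply, hK]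
        simp only [hf2]
      rw [Finset.sum_congr rfl h2] at h1
      exact h1
  exact Set.Finite.of_finite_image hfin (Subtype.val_injective.injOn)

end Pool.Agent.Results.MP_3f9d7d_an.FiniteSupport
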