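import Mathlib
import Pool.Agent.Lib.MP_3f9d7d_an.RealSet
import Pool.Agent.Lib.MP_3f9d7d_an.Variation
import Pool.Agent.Lib.MP_3f9d7d_an.H30.Even

open MeasureTheory Metric
open scoped InnerProductSpace

namespace Pool.Agent.Results.MP_3f9d7d_an.UpToThree

/-- The `p`-frame energy of a measure on the unit sphere of `ℝ^d`. -/
noncomputable def frameEnergy (d : ℕ) (p : ℝ)
    (μ : Measure (sphere (0 : EuclideanSpace ℝ (Fin d)) 1)) : ℝ :=
  ∫ z, |⟪(z.1 : EuclideanSpace ℝ (Fin d)), (z.2 : EuclideanSpace ℝ (Fin d))⟫_ℝ| ^ p ∂(μ.prod μ)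

/-- `μ` is a Borel probability measure on the unit sphere of `ℝ^d` which minimizes the `p`-frame
energy among all of these. -/
def IsMinimizer (d : ℕ) (p : ℝ) (μ : Measure (sphere (0 : EuclideanSpace ℝ (Fin d)) 1)) : Prop :=
  IsProbabilityMeasure μ ∧
    ∀ ν : Measure (sphere (0 : EuclideanSpace ℝ (Fin d)) 1), IsProbabilityMeasure ν →
      frameEnergy d p μ ≤ frameEnergy d p ν

/-- For `2 < p ≤ 3` every minimizer of the `p`-frame energy on the unit sphere of `ℝ^d` has finite
support. -/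
theorem result (d : ℕ) (p : ℝ) (hp2 : 2 < p) (hp3 : p ≤ 3)
    (μ : Measure (sphere (0 : EuclideanSpace ℝ (Fin d)) 1)) (hμ : IsMinimizer d p μ) :
    μ.support.Finite := by
  obtain ⟨hprob, hmin⟩ := hμ
  have hp : 0 < p := by linarith
  set K : sphere (0 : EuclideanSpace ℝ (Fin d)) 1 × sphere (0 : EuclideanSpace ℝ (Fin d)) 1 → ℝ :=
    fun z => |⟪(z.1 : EuclideanSpace ℝ (Fin d)), (z.2 : EuclideanSpace ℝ (Fin d))⟫_ℝ| ^ p with hK
  have hKc : Continuous K := by
    apply Continuous.rpow_const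
    · fun_prop
    · intro _; right; exact hp.le
  have hK0 : ∀ z, 0 ≤ K z := fun z => Real.rpow_nonneg (abs_nonneg _) _
  have hKs : ∀ x y, K (x, y) = K (y, x) := by
    intro x y
    simp only [hK]
    rw [real_inner_comm]
  have hpsd := fun (s : Finset (sphere (0 : EuclideanSpace ℝ (Fin d)) 1))
    (hs : ∀ x ∈ s, x ∈ μ.support) (c : sphere (0 : EuclideanSpace ℝ (Fin d)) 1 → ℝ) =>
    Pool.Agent.Lib.MP_3f9d7d_an.psd_of_minimizer hKc hK0 hmin hs c
  set X : Set (EuclideanSpace ℝ (Fin d)) := Subtype.val '' μ.support with hX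
  have hX1 : ∀ x ∈ X, ‖x‖ = 1 := by
    rintro _ ⟨x, -, rfl⟩
    exact mem_sphere_zero_iff_norm.mp x.2
  have hpsdX : ∀ (s : Finset X) (c : X → ℝ), 0 ≤ ∑ a ∈ s, ∑ b ∈ s, c a * c b *
      |⟪(a : EuclideanSpace ℝ (Fin d)), (b : EuclideanSpace ℝ (Fin d))⟫_ℝ| ^ p := by
    intro s c
    classical
    have hmem : ∀ x : X, ∃ y : sphere (0 : EuclideanSpace ℝ (Fin d)) 1, y ∈ μ.support ∧
        (y : EuclideanSpace ℝ (Fin d)) = x := by
      rintro ⟨_, x, hx, rfl⟩
      exact ⟨x, hx, rfl⟩
    choose f hf1 hf2 using hmem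
    have hfinj : Function.Injective f := by
      intro a b hab
      apply Subtype.ext
      rw [← hf2 a, ← hf2 b, hab]
    have h1 := hpsd (s.image f) (by
      intro x hx
      obtain ⟨a, -, rfl⟩ := Finset.mem_image.mp hx
      exact hf1 a) (fun y => Function.extend f c 0 y)
    rw [Finset.sum_image (fun a _ b _ h => hfinj h)] at h1
    have h2 : ∀ a ∈ s, ∑ y ∈ s.image f, Function.extend f c 0 (f a) * Function.extend f c 0 y *
        K (f a, y) = ∑ b ∈ s, c a * c b *
          |⟪(a : EuclideanSpace ℝ (Fin d)), (b : EuclideanSpace ℝ (Fin d))⟫_ℝ| ^ p := by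
      intro a _
      rw [Finset.sum_image (fun a _ b _ h => hfinj h)]
      apply Finset.sum_congr rfl
      intro b _
      rw [hfinj.extend_apply, hfinj.extend_apply, hK]
      simp only [hf2]
    rw [Finset.sum_congr rfl h2] at h1
    exact h1
  suffices hfin : X.Finite from Set.Finite.of_finite_image hfin (Subtype.val_injective.injOn)
  by_cases hirr : Irrational p
  · apply Pool.Agent.Lib.MP_3f9d7d_an.finite_of_psd hp
    · intro n j hn _ h
      apply hirr
      refine ⟨(j : ℚ) / n, ?_⟩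
      have hn0 : (n : ℝ) ≠ 0 := by
        have : n ≠ 0 := by omega
        exact_mod_cast this
      push_cast
      rw [div_eq_iff hn0, h]
      ring
    · exact hX1
    · exact hpsdX
  · -- rational case
    by_contra hXinf
    have hXinf' : X.Infinite := hXinf
    obtain ⟨q, hq⟩ := not_not.mp hirr
    have hqpos : 0 < q := by
      have : (0 : ℝ) < q := by rw [hq]; exact hp
      exact_mod_cast this
    obtain ⟨n, hn⟩ : ∃ n : ℕ, q.den = n + 1 := ⟨q.den - 1, by have := q.den_pos; omega⟩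
    set m : ℕ := q.num.toNat with hm
    have hmnum : (m : ℤ) = q.num := Int.toNat_of_nonneg (Rat.num_pos.mpr hqpos).le
    have hpm : p * ((n + 1 : ℕ) : ℝ) = m := by
      rw [← hn, ← hq]
      have h1 : q * q.den = q.num := Rat.mul_den_eq_num q
      have h2 : (q : ℝ) * (q.den : ℝ) = (q.num : ℝ) := by exact_mod_cast h1
      rw [h2, ← hmnum]
      simp
    -- Euler-Lagrange
    set I : ℝ := ∫ z, K z ∂(μ.prod μ) with hI
    have hgeS : ∀ z : sphere (0 : EuclideanSpace ℝ (Fin d)) 1,
        I ≤ Pool.Agent.Lib.MP_3f9d7d_an.H30.pot p μ z := fun z =>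
      Pool.Agent.Lib.MP_3f9d7d_an.H30.potential_ge hKc hKs hmin z
    have hge := Pool.Agent.Lib.MP_3f9d7d_an.H30.pot_ge hp hgeS
    have hXI : ∀ x ∈ X, Pool.Agent.Lib.MP_3f9d7d_an.H30.pot p μ x = I := by
      rintro _ ⟨x, hx, rfl⟩
      exact Pool.Agent.Lib.MP_3f9d7d_an.H30.potential_eq hKc hKs hmin hx
    have hI0 : 0 < I := by
      obtain ⟨x, hx⟩ : X.Nonempty := hXinf'.nonempty
      obtain ⟨x', hx', rfl⟩ := hx
      rw [← hXI _ ⟨x', hx', rfl⟩]
      unfold Pool.Agent.Lib.MP_3f9d7d_an.H30.pot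
      have hcont := Pool.Agent.Lib.MP_3f9d7d_an.H30.cont_term (d := d) (p := p) hp.le
        (x' : EuclideanSpace ℝ (Fin d))
      have hpos := (integral_pos_iff_support_of_nonneg (μ := μ)
        (f := fun y : sphere (0 : EuclideanSpace ℝ (Fin d)) 1 =>
          |⟪(x' : EuclideanSpace ℝ (Fin d)), (y : EuclideanSpace ℝ (Fin d))⟫_ℝ| ^ p)
        (fun y => Real.rpow_nonneg (abs_nonneg _) _)
        (Pool.Agent.Lib.MP_3f9d7d_an.H30.integrable_cont hcont μ)).mpr
      apply hpos
      apply (Measure.mem_support_iff_forall x').mp hx'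
      apply (isOpen_ne_fun hcont continuous_const).mem_nhds
      have h1 : ‖(x' : EuclideanSpace ℝ (Fin d))‖ = 1 := mem_sphere_zero_iff_norm.mp x'.2
      simp [h1]
    -- a cluster in a small ball
    obtain ⟨t, htfin, htcov⟩ := (isCompact_sphere (0 : EuclideanSpace ℝ (Fin d)) 1).totallyBounded
      |> Metric.totallyBounded_iff.mp |> (· (1 / 2) (by norm_num))
    have hex : ∃ c ∈ t, (X ∩ ball c (1 / 2)).Infinite := by
      by_contra hcon
      push Not at hcon
      apply hXinf
      have hsub : X ⊆ ⋃ c ∈ t, X ∩ ball c (1 / 2) := by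
        intro x hx
        have h1 : x ∈ sphere (0 : EuclideanSpace ℝ (Fin d)) 1 := by
          rw [mem_sphere_zero_iff_norm]
          exact hX1 x hx
        obtain ⟨c, hc, hxc⟩ := Set.mem_iUnion₂.mp (htcov h1)
        exact Set.mem_iUnion₂.mpr ⟨c, hc, hx, hxc⟩
      exact (htfin.biUnion fun c hc => hcon c hc).subset hsub
    obtain ⟨c, -, hc⟩ := hex
    set B : Set X := {x | (x : EuclideanSpace ℝ (Fin d)) ∈ ball c (1 / 2)} with hB
    have hBinf : B.Infinite := by
      intro hfin
      apply hc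
      refine (hfin.image Subtype.val).subset ?_
      rintro x ⟨hx, hxc⟩
      exact ⟨⟨x, hx⟩, hxc, rfl⟩
    have hBpos : ∀ x ∈ B, ∀ y ∈ B,
        0 < ⟪(x : EuclideanSpace ℝ (Fin d)), (y : EuclideanSpace ℝ (Fin d))⟫_ℝ := by
      intro x hx y hy
      have h1 : dist (x : EuclideanSpace ℝ (Fin d)) y < 1 := by
        have h2 : dist (x : EuclideanSpace ℝ (Fin d)) c < 1 / 2 := hx
        have h3 : dist (y : EuclideanSpace ℝ (Fin d)) c < 1 / 2 := hy
        have h4 := dist_triangle_right (x : EuclideanSpace ℝ (Fin d)) y c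
        linarith
      rw [dist_eq_norm] at h1
      have h2 := norm_sub_sq_real (x : EuclideanSpace ℝ (Fin d)) y
      rw [hX1 _ x.2, hX1 _ y.2] at h2
      nlinarith [norm_nonneg ((x : EuclideanSpace ℝ (Fin d)) - y)]
    rcases Nat.even_or_odd m with heven | hodd
    · -- even numerator
      have hodd' : Odd (n + 1) := by
        rw [← Nat.not_even_iff_odd]
        intro h
        have hcop := q.reduced
        have h1 : q.num.natAbs = m := by
          rw [← hmnum]
          simp
        rw [h1, hn] at hcop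
        have h2 := Nat.dvd_gcd heven.two_dvd h.two_dvd
        rw [hcop] at h2
        omega
      have hp3' : p < 3 := by
        rcases hp3.lt_or_eq with h | h
        · exact h
        · exfalso
          rw [h] at hpm
          have h1 : 3 * (n + 1) = m := by exact_mod_cast hpm
          have h2 : Odd (3 * (n + 1)) := Odd.mul (by decide) hodd'
          rw [h1] at h2
          exact (Nat.not_even_iff_odd.mpr h2) heven
      exact Pool.Agent.Lib.MP_3f9d7d_an.H30.no_cluster_even hp2 hp3' hpm heven hodd' hI0 hge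
        (K := X) rfl hXI hpsdX hBinf hBpos
    · -- odd numerator
      obtain ⟨C, hCB, hCinf, hC⟩ := Pool.Agent.Lib.MP_3f9d7d_an.H30.sign_const hpm hodd
        (K := X) hpsdX hBinf hBpos
      obtain ⟨x, hx, x', hx', hne⟩ := hCinf.nontrivial
      exact Pool.Agent.Lib.MP_3f9d7d_an.H30.no_pair hp2 hp3 hI0 hge (hX1 _ x.2) (hXI _ x.2)
        (hX1 _ x'.2) (hXI _ x'.2) (fun h => hne (Subtype.ext h))
        (fun y hy => hC ⟨y, ⟨y, hy, rfl⟩⟩ x hx x' hx')

end Pool.Agent.Results.MP_3f9d7d_an.UpToThree
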